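import Pool.Agent.Mir.Par
import Pool.Agent.Mir.Cyl
import Pool.Agent.Mir.KS
import Pool.Agent.Mir.KSr
import Pool.Agent.Mir.SurgDet
import Pool.Agent.Mir.Surg
import Pool.Agent.Mir.MeetM
import Pool.Agent.Mir.Plane
import Pool.Agent.Mir.Cross1
import Pool.Agent.Mir.Cross2
import Pool.Agent.Mir.Lam
import Pool.Agent.Mir.XRm
import Pool.Agent.Mir.RM
import Pool.Agent.Mir.Star
import Pool.Agent.Mir.Second
import Pool.Agent.Mir.Fin
import Pool.Agent.MLB.Gr
import Pool.Agent.MLB.Kap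
import Pool.Agent.MLB.Crs
import Pool.Agent.MLB.B1
import Pool.Agent.MLB.C3
import Pool.Agent.MLB.Cmb
import Pool.Agent.MLB.Gl
import Pool.Agent.MLB.Det
import Pool.Agent.MLB.Bas
import Pool.Agent.MLB.One
import Pool.Agent.MLB.Ind
import Pool.Agent.MLB.LD
import Pool.Agent.MLB.Lv1
import Pool.Agent.MLB.Lev
import Pool.Agent.MLB.Tow
import Pool.Agent.MLB.Tw2
import Pool.Agent.MLB.Cov
import Pool.Agent.MLB.Cnt
import Pool.Agent.MLB.Cyl
import Pool.Agent.MLB.Tw3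
import Pool.Agent.MLB.TA
import Pool.Agent.MLB.TwA
import Pool.Agent.MLB.AsA
import Pool.Agent.MLB.AA
import Pool.Agent.MLB.AsB
import Pool.Agent.MLB.BB

/-!
# MP_b6bbcf_pr: better lower bounds for the escape probabilities of the mirror model

The model (`law`, `mir p`, `turn`, `ray`) is in `Pool/Agent/Mir/Defs.lean`; `nm` (sup-norm) is in
`Pool/Agent/MSB/St.lean`.
-/

set_option autoImplicit false

open MeasureTheory Filter

namespace Pool.Agent.Results.MP_b6bbcf_pr.EscapeLowerBound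

open Mir Pool.Agent.MSB Pool.Agent.MLB

/-- Let `E n` be the event that the ray from the origin, whose first step goes north to `(0, 1)`,
visits a vertex of sup-norm `≥ n`.
(1) There is `N0`, the same for all mirror densities `p ∈ [0, 1]`, such that for all `N ≥ N0` there
is `n ∈ [√N, N]` with `P(E n) ≥ exp ((1/4) √(log n)) / n`.
(2) For every `p ∈ (0, 1)` there is `c > 0` with `P(E n) ≥ c (log n) ^ (1/10) / n` for all `n ≥ 2`. -/
theorem result :
    (∃ N0 : ℕ, ∀ p : ℝ, 0 ≤ p → p ≤ 1 → ∀ N ≥ N0, ∃ n : ℕ, √(N : ℝ) ≤ n ∧ n ≤ N ∧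
      Real.exp (1 / 4 * √(Real.log n)) / n ≤
        (mir p).real {ω | ∃ i, n ≤ nm (ray ω ((0, 1), Dir.N) i).1}) ∧
    ∀ p : ℝ, 0 < p → p < 1 → ∃ c : ℝ, 0 < c ∧ ∀ n : ℕ, 2 ≤ n →
      c * (Real.log n) ^ (1 / 10 : ℝ) / n ≤
        (mir p).real {ω | ∃ i, n ≤ nm (ray ω ((0, 1), Dir.N) i).1} := by
  have hks : Stmt_ks := ks (cyl par)
  have hsurg : Stmt_surg := surg surgdet
  have hlam : Stmt_lam := lam hks (cross1 plane) hsurg meet
  have hR : Stmt_R := rm hsurg meet (cross2 plane) hlam (xr (ksr hks) hlam)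
  have hfin : Stmt_fin := fin_thm hR star second
  have hBas : St_Bas := thm_Bas
  have hC3 : St_C3 := thm_C3 thm_Kap thm_Crs
  have hCmb : St_Cmb := thm_Cmb thm_Kap thm_Crs (thm_B1 thm_Kap) hC3
  have hDet : St_Det := thm_Det thm_Gr hCmb thm_Gl
  have hLD : St_LD := thm_LD hBas (thm_Ind hBas (thm_One hBas))
  have hTow : St_Tow := thm_Tow (thm_Lev (thm_Lv1 hDet hLD hBas) hBas) hBas
  have hTw2 : St_Tw2 := thm_Tw2 hTow
  have hCyl : St_Cyl := thm_Cyl (thm_Cov hBas) (thm_Cnt par) hBas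
  have hTw3 : St_Tw3 := thm_Tw3 hCyl hTw2
  have hTA : St_TA := thm_TA hfin
  exact ⟨thm_BB thm_AsB hTw3 hBas, thm_AA hTA thm_TwA thm_AsA hTw3 hCyl hBas⟩

end Pool.Agent.Results.MP_b6bbcf_pr.EscapeLowerBound
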