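import Pool.Agent.Mir.Par
import Pool.Agent.Mir.Cyl
import Pool.Agent.Mir.KS
import Pool.Agent.Mir.KSr
import Pool.Agent.Mir.SurgDet
import Pool.Agent.Mir.Surg
import Pool.Agent.Mir.MeetM
import Pool.Agent.Mir.Plane
import Pool.Agent.Mir.Cross1
import Pool.Agent.Mir.Cross2
import Pool.Agent.Mir.Lam
import Pool.Agent.Mir.XRm
import Pool.Agent.Mir.RM
import Pool.Agent.Mir.Star
import Pool.Agent.Mir.Second
import Pool.Agent.Mir.Fin
import Pool.Agent.Mir.Main
import Pool.Agent.MSB.Slb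
import Pool.Agent.MSB.Qn
import Pool.Agent.MHF.Bas1
import Pool.Agent.MHF.Bas2
import Pool.Agent.MHF.Sym
import Pool.Agent.MHF.Msb
import Pool.Agent.MHF.Hp
import Pool.Agent.MHF.Ln
import Pool.Agent.MHF.Orb
import Pool.Agent.MHF.Mt
import Pool.Agent.MHF.Fe
import Pool.Agent.MHF.Jn
import Pool.Agent.MHF.Rej
import Pool.Agent.MHF.Un
import Pool.Agent.MHF.Erg
import Pool.Agent.MHF.Ex1
import Pool.Agent.MHF.Ex2
import Pool.Agent.MHF.Adj
import Pool.Agent.MHF.Al
import Pool.Agent.MHF.ConM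
import Pool.Agent.MHF.Fin

/-!
# MP_b6bbcf_pr: unbounded rays of the mirror model cross every half-line infinitely often

The model (`law`, `mir p`, `turn`, `ray`) is in `Pool/Agent/Mir/Defs.lean`; `Cr h s`, `Cv h s` (the last
step of a ray in the state `s` crosses the horizontal, vertical line between the rows, columns `h` and
`h + 1`) are in `Pool/Agent/MHF/Defs.lean`.
-/

set_option autoImplicit false

open MeasureTheory Filter

namespace Pool.Agent.Results.MP_b6bbcf_pr.HalfLines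

open Mir Pool.Agent.MHF

/-- For every mirror density `p ∈ (0, 1)`, almost surely, every unbounded ray (every initial vertex and
direction) crosses, for all integers `h` and `c`, infinitely often the line between the rows `h` and
`h + 1` in a column `≥ c`, infinitely often in a column `≤ c`, and the same for the line between the
columns `h` and `h + 1` and the rows `≥ c`, `≤ c`. -/
theorem result (p : ℝ) (h0 : 0 < p) (h1 : p < 1) :
    ∀ᵐ ω ∂(mir p), ∀ s : (ℤ × ℤ) × Dir, {v : ℤ × ℤ | ∃ n, (ray ω s n).1 = v}.Infinite →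
      ∀ h c : ℤ,
        (∃ᶠ n in atTop, Cr h (ray ω s n) ∧ c ≤ (ray ω s n).1.1) ∧
        (∃ᶠ n in atTop, Cr h (ray ω s n) ∧ (ray ω s n).1.1 ≤ c) ∧
        (∃ᶠ n in atTop, Cv h (ray ω s n) ∧ c ≤ (ray ω s n).1.2) ∧
        (∃ᶠ n in atTop, Cv h (ray ω s n) ∧ (ray ω s n).1.2 ≤ c) := by
  have hks : Stmt_ks := ks (cyl par)
  have hsurg : Stmt_surg := surg surgdet
  have hlam : Stmt_lam := lam hks (cross1 plane) hsurg meet
  have hR : Stmt_R := rm hsurg meet (cross2 plane) hlam (xr (ksr hks) hlam)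
  have hmain : Stmt_main := main_thm (fin_thm hR star second)
  have hB : St_Bas1 := thm_Bas1
  have hS : St_Sym := thm_Sym
  have hM : St_Msb := thm_Msb hB
  have hL : St_Ln := thm_Ln (thm_Hp (Pool.Agent.MSB.thm_Qn hmain Pool.Agent.MSB.thm_Slb)) hB hS
  have hF : St_Fe := thm_Fe
  have hJ : St_Rej := thm_Rej hB (thm_Bas2 hB) thm_Jn
  have hU : St_Un := thm_Un (thm_Mt hL hB hS hM (thm_Orb hB)) hF hJ hS
  have hEr : St_Erg := thm_Erg
  have hE2 : St_Ex2 := thm_Ex2 (thm_Ex1 hEr hM hS hL hF hJ hB) hU hF hJ hB hL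
  have hC : St_Con := thm_Con (thm_Al hE2 (thm_Adj hB) hL hB hS) hU hL hEr hM hS hB
  exact thm_Fin hC hB hS hL p h0 h1

end Pool.Agent.Results.MP_b6bbcf_pr.HalfLines
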