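import Pool.Agent.Mir.Par
import Pool.Agent.Mir.Cyl
import Pool.Agent.Mir.KS
import Pool.Agent.Mir.KSr
import Pool.Agent.Mir.SurgDet
import Pool.Agent.Mir.Surg
import Pool.Agent.Mir.MeetM
import Pool.Agent.Mir.Plane
import Pool.Agent.Mir.Cross1
import Pool.Agent.Mir.Cross2
import Pool.Agent.Mir.Lam
import Pool.Agent.Mir.XRm
import Pool.Agent.Mir.RM
import Pool.Agent.Mir.Star
import Pool.Agent.Mir.Second
import Pool.Agent.Mir.Fin
import Pool.Agent.Mir.Main

/-!
# MP_b6bbcf_pr: polynomial decay of the half-plane escape probability in the mirror model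

Everything is proved in `Pool/Agent/Mir`.  `Defs.lean` has the definitions of the model:
`law p` (empty, NE mirror, NW mirror with probabilities `1 - p`, `p / 2`, `p / 2`), the product
measure `mir p` on configurations `ω : ℤ × ℤ → Fin 3`, the rule `turn`, and `ray ω s n`, the state
(vertex, direction of arrival) after `n` steps of the ray started in the state `s`.
-/

open MeasureTheory

namespace Pool.Agent.Results.MP_b6bbcf_pr.PolynomialEscape

open Mir

/-- For every mirror density `p ∈ (0, 1)` there is `C` such that for all `k ≥ 1` the probability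
that the ray from the origin, whose first step goes north to `(0, 1)`, reaches height `k` before
returning to height `0` is at most `C k^(-1/13)`. -/
theorem result (p : ℝ) (h0 : 0 < p) (h1 : p < 1) : ∃ C : ℝ, ∀ k : ℕ, 1 ≤ k →
    (mir p).real {ω | ∃ n, (ray ω ((0, 1), Dir.N) n).1.2 = k ∧
      ∀ i ≤ n, 1 ≤ (ray ω ((0, 1), Dir.N) i).1.2} ≤ C * (k : ℝ) ^ (-(1 / 13 : ℝ)) := by
  have hks : Stmt_ks := ks (cyl par)
  have hsurg : Stmt_surg := surg surgdet
  have hlam : Stmt_lam := lam hks (cross1 plane) hsurg meet
  have hR : Stmt_R := rm hsurg meet (cross2 plane) hlam (xr (ksr hks) hlam)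
  exact main_thm (fin_thm hR star second) p h0 h1

end Pool.Agent.Results.MP_b6bbcf_pr.PolynomialEscape
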