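import Pool.Agent.Mir.Par
import Pool.Agent.Mir.Cyl
import Pool.Agent.Mir.KS
import Pool.Agent.Mir.KSr
import Pool.Agent.Mir.SurgDet
import Pool.Agent.Mir.Surg
import Pool.Agent.Mir.MeetM
import Pool.Agent.Mir.Plane
import Pool.Agent.Mir.Cross1
import Pool.Agent.Mir.Cross2
import Pool.Agent.Mir.Lam
import Pool.Agent.Mir.XRm
import Pool.Agent.Mir.RM
import Pool.Agent.Mir.Star
import Pool.Agent.Mir.Second
import Pool.Agent.Mir.Fin
import Pool.Agent.Mir.Main
import Pool.Agent.MSB.Slb
import Pool.Agent.MSB.Qn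
import Pool.Agent.MSB.Nmx
import Pool.Agent.MSB.Nm4
import Pool.Agent.MSB.Sum
import Pool.Agent.MSB.Emx
import Pool.Agent.MSB.Asy
import Pool.Agent.MSB.All
import Pool.Agent.MSB.Fin

/-!
# MP_b6bbcf_pr: the rays of the mirror model are sub-ballistic, with a rate

The model (`law`, `mir p`, `turn`, `ray`) is in `Pool/Agent/Mir/Defs.lean`; `nm` (sup-norm) and
`mx` (largest sup-norm up to time `t`) are in `Pool/Agent/MSB/St.lean`.
-/

set_option autoImplicit false

open MeasureTheory Filter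

namespace Pool.Agent.Results.MP_b6bbcf_pr.SubBallistic

open Mir Pool.Agent.MSB

/-- For every mirror density `p ∈ (0, 1)`:
(1) for the ray from the origin, whose first step goes north to `(0, 1)`, the mean of the largest
sup-norm of the vertices visited in the steps `0, ..., t` is at most `C t ^ (13/14)`;
(2) for every `a > 13/14`, almost surely, for every initial state the sup-norm of the position
after `n` steps, divided by `n ^ a`, tends to `0`. -/
theorem result (p : ℝ) (h0 : 0 < p) (h1 : p < 1) :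
    (∃ C : ℝ, ∀ t : ℕ, 1 ≤ t →
      ∫ ω, (mx ω ((0, 1), Dir.N) t : ℝ) ∂(mir p) ≤ C * (t : ℝ) ^ (13 / 14 : ℝ)) ∧
    ∀ a : ℝ, 13 / 14 < a → ∀ᵐ ω ∂(mir p), ∀ s : (ℤ × ℤ) × Dir,
      Tendsto (fun n : ℕ => (nm (ray ω s n).1 : ℝ) / (n : ℝ) ^ a) atTop (nhds 0) := by
  have hks : Stmt_ks := ks (cyl par)
  have hsurg : Stmt_surg := surg surgdet
  have hlam : Stmt_lam := lam hks (cross1 plane) hsurg meet
  have hR : Stmt_R := rm hsurg meet (cross2 plane) hlam (xr (ksr hks) hlam)
  have hmain : Stmt_main := main_thm (fin_thm hR star second)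
  have hQn : St_Qn := thm_Qn hmain thm_Slb
  have hE : St_Emx := thm_Emx hQn (thm_Nm4 thm_Nmx) thm_Sum
  have hA : St_Asy := thm_Asy hE
  obtain ⟨-, hb, -⟩ := thm_Fin hQn hE hA p h0 h1
  exact ⟨hb, fun a haa => thm_All hA p h0 h1 a haa⟩

end Pool.Agent.Results.MP_b6bbcf_pr.SubBallistic
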